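import Mathlib
import Pool.Agent.U792.G2.Split

/-!
`X ^ m + Y ^ m = z ^ n`, `m` odd and prime to `z`: the factors `X + Y` and
`(X ^ m + Y ^ m) / (X + Y)` are `n`-th powers, up to sign, and the roots are congruent modulo the
divisors `Q` of `X Y` for which `n` and `φ (Q)` are coprime.
-/

set_option autoImplicit false

namespace Pool.Agent.U792.EP

open Finset Pool.Agent.U792.G2

theorem size {n m : ℕ} {K L Q b μ : ℝ} (hK : 0 < K) (hQ : K + Q ≤ L)
    (hKL : K < L) (hμ : 0 < μ) (h : μ ^ m * L ^ n ≤ (μ + b) ^ m * K ^ n) (hb : 0 < b) :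
    n * μ * Q ≤ m * b * L := by
  have hL : 0 < L := hK.trans hKL
  set x : ℝ := (L - K) / L with hx
  have hKx : K ≤ L * Real.exp (-x) := by
    have h1 : 1 - x ≤ Real.exp (-x) := by
      have := Real.add_one_le_exp (-x)
      linarith
    have h2 : K = L * (1 - x) := by
      rw [hx]
      field_simp
      ring
    rw [h2]
    exact mul_le_mul_of_nonneg_left h1 hL.le
  have hμb : μ + b ≤ μ * Real.exp (b / μ) := by
    have h1 := Real.add_one_le_exp (b / μ)
    have h2 : μ + b = μ * (b / μ + 1) := by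
      field_simp
      ring
    rw [h2]
    exact mul_le_mul_of_nonneg_left h1 hμ.le
  have h3 : (μ + b) ^ m ≤ μ ^ m * Real.exp (m * (b / μ)) := by
    have := pow_le_pow_left₀ (by positivity) hμb m
    rwa [mul_pow, ← Real.exp_nat_mul] at this
  have h4 : K ^ n ≤ L ^ n * Real.exp (n * (-x)) := by
    have := pow_le_pow_left₀ hK.le hKx n
    rwa [mul_pow, ← Real.exp_nat_mul] at this
  have h5 : (μ + b) ^ m * K ^ n ≤
      (μ ^ m * Real.exp (m * (b / μ))) * (L ^ n * Real.exp (n * (-x))) :=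
    mul_le_mul h3 h4 (by positivity) (by positivity)
  have h6 : (μ ^ m * L ^ n) * 1 ≤ (μ ^ m * L ^ n) * Real.exp (m * (b / μ) - n * x) := by
    have e : (μ ^ m * L ^ n) * Real.exp (m * (b / μ) - n * x) =
        (μ ^ m * Real.exp (m * (b / μ))) * (L ^ n * Real.exp (n * (-x))) := by
      rw [show (m : ℝ) * (b / μ) - n * x = m * (b / μ) + n * (-x) by ring, Real.exp_add]
      ring
    rw [mul_one, e]
    exact h.trans h5
  have h7 := le_of_mul_le_mul_left h6 (by positivity)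
  have h8 : 0 ≤ (m : ℝ) * (b / μ) - n * x := by
    by_contra hc
    push Not at hc
    have h8 := Real.exp_lt_exp.2 hc
    rw [Real.exp_zero] at h8
    linarith
  have h9 : (n : ℝ) * x * (μ * L) ≤ m * (b / μ) * (μ * L) :=
    mul_le_mul_of_nonneg_right (by linarith) (by positivity)
  have e1 : (n : ℝ) * x * (μ * L) = n * μ * (L - K) := by
    rw [hx]
    field_simp
  have e2 : (m : ℝ) * (b / μ) * (μ * L) = m * b * L := by
    field_simp
  rw [e1, e2] at h9
  refine le_trans ?_ h9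
  exact mul_le_mul_of_nonneg_left (by linarith) (by positivity)

/-- `X Y (X + Y)` divides `(X + Y) ^ m - X ^ m - Y ^ m` -/
theorem cauchy_dvd {m : ℕ} (hm : m ≠ 0) (hodd : Odd m) {X Y : ℤ} (hXY : IsCoprime X Y) :
    X * Y * (X + Y) ∣ (X + Y) ^ m - X ^ m - Y ^ m := by
  have hSX : IsCoprime (X + Y) X := by
    have := (IsCoprime.add_mul_left_left_iff (x := Y) (y := X) (z := 1)).2 hXY.symm
    rwa [mul_one, add_comm] at this
  have hSY : IsCoprime (X + Y) Y := by
    have := (IsCoprime.add_mul_left_left_iff (x := X) (y := Y) (z := 1)).2 hXY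
    rwa [mul_one] at this
  refine IsCoprime.mul_dvd (IsCoprime.mul_right hSX hSY).symm (hXY.mul_dvd ?_ ?_) ?_
  · have h1 : (X + Y) ^ m - X ^ m - Y ^ m = ((X + Y) ^ m - Y ^ m) - X ^ m := by ring
    rw [h1]
    refine dvd_sub ?_ (dvd_pow_self _ hm)
    have h2 := sub_dvd_pow_sub_pow (X + Y) Y m
    rwa [add_sub_cancel_right] at h2
  · refine dvd_sub ?_ (dvd_pow_self _ hm)
    have h2 := sub_dvd_pow_sub_pow (X + Y) X m
    rwa [add_sub_cancel_left] at h2
  · have h1 : (X + Y) ^ m - X ^ m - Y ^ m = (X + Y) ^ m - (X ^ m + Y ^ m) := by ring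
    rw [h1]
    exact dvd_sub (dvd_pow_self _ hm) (hodd.add_dvd_pow_add_pow X Y)

theorem arith {m n : ℕ} (hm : 3 ≤ m) (hodd : Odd m) (hn : n ≠ 0) {X Y z : ℤ}
    (hXY : IsCoprime X Y) (hz : IsCoprime (m : ℤ) (X + Y)) (h : X ^ m + Y ^ m = z ^ n) :
    ∃ u v : ℕ, 0 < u ∧ 0 < v ∧ |X + Y| = (u : ℤ) ^ n ∧ (X + Y) * (v : ℤ) ^ n = X ^ m + Y ^ m ∧
      ∀ Q : ℕ, Q ≠ 0 → (Q : ℤ) * (X + Y) ∣ (X + Y) ^ m - X ^ m - Y ^ m →
        Nat.Coprime Q.totient n → (Q : ℤ) ∣ (v : ℤ) - (u : ℤ) ^ (m - 1) := by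
  set S : ℤ := X + Y with hS
  set T : ℤ := ∑ i ∈ range m, X ^ i * (-Y) ^ (m - 1 - i) with hT
  have hfac : S * T = X ^ m + Y ^ m := by
    have h1 := Commute.geom_sum₂_mul (Commute.all X (-Y)) m
    rw [hodd.neg_pow] at h1
    rw [mul_comm, hS, hT]
    linear_combination h1
  have hS0 : S ≠ 0 := by
    intro h0
    rw [h0] at hz
    have h1 := hz.isUnit_of_dvd' (dvd_refl _) (dvd_zero _)
    rw [Int.isUnit_iff_natAbs_eq, Int.natAbs_natCast] at h1
    omega
  have hTpos : 0 < T := by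
    have hmono : StrictMono fun t : ℤ => t ^ m := hodd.strictMono_pow
    rcases lt_or_gt_of_ne hS0 with h1 | h1
    · have h2 : X < -Y := by rw [hS] at h1; linarith
      have h3 := hmono h2
      simp only [hodd.neg_pow] at h3
      have h4 : S * T < 0 := by rw [hfac]; linarith
      exact pos_of_mul_neg_right h4 h1.le
    · have h2 : -Y < X := by rw [hS] at h1; linarith
      have h3 := hmono h2
      simp only [hodd.neg_pow] at h3
      have h4 : 0 < S * T := by rw [hfac]; linarith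
      exact (pos_iff_pos_of_mul_pos h4).1 h1
  have hT0 : T ≠ 0 := hTpos.ne'
  have hco : IsCoprime S T := by
    refine isCoprime_of_prime_dvd ?_ ?_
    · rintro ⟨h1, -⟩
      exact hS0 h1
    · intro l hl h1 h2
      have h3 : l ∣ X - -Y := by rwa [sub_neg_eq_add]
      have h4 := (dvd_geom_sum₂_iff_of_dvd_sub h3).1 h2
      have hly : ¬ l ∣ Y := by
        intro h5
        have h6 : l ∣ X := by
          have := dvd_sub h1 h5
          rwa [hS, add_sub_cancel_right] at this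
        exact hl.not_isUnit (hXY.isUnit_of_dvd' h6 h5)
      rcases hl.dvd_or_dvd h4 with h5 | h5
      · exact hl.not_isUnit (hz.isUnit_of_dvd' h5 h1)
      · have h6 := hl.dvd_of_dvd_pow h5
        exact hly ((dvd_neg).1 h6)
  have hnat : S.natAbs * T.natAbs = z.natAbs ^ n := by
    rw [← Int.natAbs_mul, hfac, h, Int.natAbs_pow]
  have hnco : Nat.Coprime S.natAbs T.natAbs := Int.isCoprime_iff_gcd_eq_one.1 hco
  obtain ⟨u, hu⟩ := exists_eq_pow_of_mul_eq_pow (Nat.isUnit_iff.2 hnco) hnat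
  have hnat2 : T.natAbs * S.natAbs = z.natAbs ^ n := by rw [mul_comm]; exact hnat
  obtain ⟨v, hv⟩ := exists_eq_pow_of_mul_eq_pow (Nat.isUnit_iff.2 hnco.symm) hnat2
  have huS : |S| = (u : ℤ) ^ n := by
    rw [Int.abs_eq_natAbs, hu]
    push_cast
    rfl
  have hvT : T = (v : ℤ) ^ n := by
    have h1 : |T| = (v : ℤ) ^ n := by
      rw [Int.abs_eq_natAbs, hv]
      push_cast
      rfl
    rw [← h1, abs_of_pos hTpos]
  have hu0 : 0 < u := by
    rw [Nat.pos_iff_ne_zero]
    rintro rfl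
    rw [Nat.cast_zero, zero_pow hn, abs_eq_zero] at huS
    exact hS0 huS
  have hv0 : 0 < v := by
    rw [Nat.pos_iff_ne_zero]
    rintro rfl
    rw [Nat.cast_zero, zero_pow hn] at hvT
    exact hT0 hvT
  have hSm : S * S ^ (m - 1) = S ^ m := mul_pow_sub_one (by omega) S
  have heven : Even (m - 1) := by
    obtain ⟨k, hk⟩ := hodd
    exact ⟨k, by omega⟩
  have hSpow : S ^ (m - 1) = ((u : ℤ) ^ (m - 1)) ^ n := by
    rw [← heven.pow_abs, huS, ← pow_mul, ← pow_mul, mul_comm]
  refine ⟨u, v, hu0, hv0, huS, ?_, ?_⟩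
  · rw [← hfac, ← hvT]
  · intro Q hQ0 hQ hQn
    have hdvd : (Q : ℤ) ∣ T - S ^ (m - 1) := by
      have h1 : S ^ m - X ^ m - Y ^ m = (S ^ (m - 1) - T) * S := by
        rw [sub_mul, mul_comm _ S, hSm, mul_comm T S, hfac]
        ring
      rw [h1] at hQ
      have h2 := Int.dvd_of_mul_dvd_mul_right hS0 hQ
      rw [← neg_sub]
      exact h2.neg_right
    have hSQ : IsCoprime S (Q : ℤ) := by
      refine isCoprime_of_prime_dvd ?_ ?_
      · rintro ⟨h1, -⟩
        exact hS0 h1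
      · intro l hl h1 h2
        have h3 : l ∣ T := by
          have h4 := dvd_add (h2.trans hdvd) (h1.trans (dvd_pow_self S (n := m - 1) (by omega)))
          rwa [sub_add_cancel] at h4
        exact hl.not_isUnit (hco.isUnit_of_dvd' h1 h3)
    have huQ : IsCoprime (Q : ℤ) (u : ℤ) := by
      have h1 : IsCoprime (|S|) (Q : ℤ) := by
        rcases abs_choice S with h2 | h2
        · rwa [h2]
        · rw [h2]
          exact hSQ.neg_left
      rw [huS] at h1
      exact ((IsCoprime.pow_left_iff (Nat.pos_of_ne_zero hn)).1 h1).symm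
    have hTQ : IsCoprime T (Q : ℤ) := by
      obtain ⟨t, ht⟩ := hdvd
      have h1 : T = S ^ (m - 1) + (Q : ℤ) * t := by rw [← ht]; ring
      rw [h1]
      exact (IsCoprime.add_mul_left_left_iff).2 hSQ.pow_left
    have hvQ : IsCoprime (Q : ℤ) (v : ℤ) := by
      rw [hvT] at hTQ
      exact ((IsCoprime.pow_left_iff (Nat.pos_of_ne_zero hn)).1 hTQ).symm
    refine dvd_sub_of_dvd_pow_sub hQ0 hQn hvQ huQ.pow_right ?_
    rw [← hvT, ← hSpow]
    exact hdvd

end Pool.Agent.U792.EP
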