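import Mathlib
import Pool.Agent.U792.EP.Core

/-!
`X ^ m + Y ^ m = z ^ n`: the divisors `Q` of `X Y` for which `n` and `φ (Q)` are coprime are small.
-/

set_option autoImplicit false

namespace Pool.Agent.U792.EP

theorem pow_add_lt {a b m : ℕ} (ha : 0 < a) (hb : 0 < b) (hm : 2 ≤ m) :
    a ^ m + b ^ m < (a + b) ^ m := by
  obtain ⟨k, rfl⟩ : ∃ k, m = k + 1 := ⟨m - 1, by omega⟩
  have hk : k ≠ 0 := by omega
  have h1 : a ^ k < (a + b) ^ k := Nat.pow_lt_pow_left (by omega) hk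
  have h2 : b ^ k < (a + b) ^ k := Nat.pow_lt_pow_left (by omega) hk
  have h3 := Nat.mul_lt_mul_of_pos_right h1 ha
  have h4 := Nat.mul_lt_mul_of_pos_right h2 hb
  have e : (a + b) ^ (k + 1) = (a + b) ^ k * a + (a + b) ^ k * b := by ring
  rw [e, pow_succ, pow_succ]
  omega

theorem pow_sub_le (b s k : ℕ) : (b + s) ^ (k + 1) ≤ b ^ (k + 1) + s * (2 * b + s) ^ k := by
  induction k with
  | zero => simp
  | succ k ih =>
    have h1 : (b + s) ^ k ≤ (2 * b + s) ^ k := Nat.pow_le_pow_left (by omega) k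
    calc (b + s) ^ (k + 1 + 1) = b * (b + s) ^ (k + 1) + s * ((b + s) * (b + s) ^ k) := by ring
      _ ≤ b * (b ^ (k + 1) + s * (2 * b + s) ^ k) + s * ((b + s) * (2 * b + s) ^ k) := by
          gcongr
      _ = b ^ (k + 1 + 1) + s * (2 * b + s) ^ (k + 1) := by ring

theorem size_nat {n m K L Q b μ : ℕ} (hK : 0 < K) (hQ : K + Q ≤ L) (hKL : K < L) (hμ : 0 < μ)
    (hb : 0 < b) (h : μ ^ m * L ^ n ≤ (μ + b) ^ m * K ^ n) : (n * μ * Q) ^ n ≤ (m * b) ^ n * L ^ n := by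
  have h1 := size (n := n) (m := m) (K := (K : ℝ)) (L := (L : ℝ)) (Q := (Q : ℝ)) (b := (b : ℝ))
    (μ := (μ : ℝ)) (by exact_mod_cast hK) (by exact_mod_cast hQ) (by exact_mod_cast hKL)
    (by exact_mod_cast hμ) (by exact_mod_cast h) (by exact_mod_cast hb)
  have h2 : n * μ * Q ≤ m * b * L := by exact_mod_cast h1
  have h3 := Nat.pow_le_pow_left h2 n
  rwa [mul_pow (m * b) L n] at h3

theorem caseA {a b A B Q m n : ℕ} (ha : 0 < a) (hb : 0 < b) (hB : 0 < B) (hm : 2 ≤ m)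
    (h1 : A ^ n = (a + b) ^ (m - 1)) (h2 : (a + b) * B ^ n = a ^ m + b ^ m)
    (hQ : (Q : ℤ) ∣ (B : ℤ) - (A : ℤ)) :
    (Q + 1) ^ n ≤ (a + b) ^ (m - 1) ∧ (n * a * Q) ^ n ≤ (m * b) ^ n * (a + b) ^ (m - 1) := by
  obtain ⟨k, rfl⟩ : ∃ k, m = k + 1 := ⟨m - 1, by omega⟩
  rw [Nat.add_sub_cancel] at h1 ⊢
  have hlt := pow_add_lt ha hb hm
  have hBA : B < A := by
    by_contra hc
    push Not at hc
    have h3 := Nat.mul_le_mul_left (a + b) (Nat.pow_le_pow_left hc n)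
    rw [h1, h2, ← pow_succ'] at h3
    omega
  have hQ2 : (Q : ℤ) ∣ (A : ℤ) - (B : ℤ) := by
    rw [← neg_sub]
    exact hQ.neg_right
  have hQ3 := Int.le_of_dvd (by omega) hQ2
  have hQ4 : B + Q ≤ A := by omega
  constructor
  · rw [← h1]
    exact Nat.pow_le_pow_left (by omega) n
  · rw [← h1]
    refine size_nat hB hQ4 hBA ha hb ?_
    rw [h1]
    calc a ^ (k + 1) * (a + b) ^ k ≤ (a ^ (k + 1) + b ^ (k + 1)) * (a + b) ^ k :=
          Nat.mul_le_mul_right _ (by omega)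
      _ = (a + b) ^ (k + 1) * B ^ n := by rw [← h2]; ring

theorem caseB {b s A B Q m n : ℕ} (hb : 0 < b) (hs : 0 < s) (hA : 0 < A) (hm : 2 ≤ m)
    (h1 : A ^ n = s ^ (m - 1)) (h2 : s * B ^ n + b ^ m = (b + s) ^ m)
    (hQ : (Q : ℤ) ∣ (B : ℤ) - (A : ℤ)) :
    (Q + 1) ^ n ≤ (2 * b + s) ^ (m - 1) ∧
      (n * s * Q) ^ n ≤ (m * b) ^ n * (2 * b + s) ^ (m - 1) := by
  obtain ⟨k, rfl⟩ : ∃ k, m = k + 1 := ⟨m - 1, by omega⟩
  rw [Nat.add_sub_cancel] at h1 ⊢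
  have hlt := pow_add_lt hb hs hm
  have hAB : A < B := by
    by_contra hc
    push Not at hc
    have h3 := Nat.mul_le_mul_left s (Nat.pow_le_pow_left hc n)
    rw [h1, ← pow_succ'] at h3
    omega
  have hQ3 := Int.le_of_dvd (by omega) hQ
  have hQ4 : A + Q ≤ B := by omega
  have hBn : B ^ n ≤ (2 * b + s) ^ k := by
    have h3 := pow_sub_le b s k
    have h4 : s * B ^ n ≤ s * (2 * b + s) ^ k := by omega
    exact Nat.le_of_mul_le_mul_left h4 hs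
  constructor
  · exact (Nat.pow_le_pow_left (by omega) n).trans hBn
  · refine (size_nat (n := n) (m := k + 1) hA hQ4 hAB hs hb ?_).trans
      (Nat.mul_le_mul_left _ hBn)
    rw [h1]
    calc s ^ (k + 1) * B ^ n = s ^ k * (s * B ^ n) := by ring
      _ ≤ s ^ k * (b + s) ^ (k + 1) := Nat.mul_le_mul_left _ (by omega)
      _ = (s + b) ^ (k + 1) * s ^ k := by ring

/-- the main inequality for `|Y| ≤ |X|` -/
theorem main_le {m n : ℕ} (hm : 3 ≤ m) (hodd : Odd m) (hn : n ≠ 0) {X Y z : ℤ} (hX : X ≠ 0)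
    (hY : Y ≠ 0) (hXY : IsCoprime X Y) (hz : IsCoprime (m : ℤ) (X + Y))
    (h : X ^ m + Y ^ m = z ^ n) (hle : |Y| ≤ |X|) {Q : ℕ} (hQ0 : Q ≠ 0)
    (hQ : (Q : ℤ) * (X + Y) ∣ (X + Y) ^ m - X ^ m - Y ^ m) (hQn : Nat.Coprime Q.totient n) :
    ((Q : ℤ) + 1) ^ n ≤ (|X| + |Y|) ^ (m - 1) ∧
      ((n : ℤ) * min |X + Y| |X| * Q) ^ n ≤ ((m : ℤ) * |Y|) ^ n * (|X| + |Y|) ^ (m - 1) := by
  obtain ⟨u, v, hu, hv, h1, h2', h3⟩ := arith hm hodd hn hXY hz h
  have h2 : |X + Y| * (v : ℤ) ^ n = |X ^ m + Y ^ m| := by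
    rw [← h2', abs_mul, abs_of_pos (show (0 : ℤ) < (v : ℤ) ^ n by positivity)]
  have h4 := h3 Q hQ0 hQ hQn
  have hXa : 0 < |X| := abs_pos.2 hX
  have hYa : 0 < |Y| := abs_pos.2 hY
  obtain ⟨a, ha⟩ : ∃ a : ℕ, |X| = a := ⟨X.natAbs, by simp⟩
  obtain ⟨b, hb⟩ : ∃ b : ℕ, |Y| = b := ⟨Y.natAbs, by simp⟩
  have hS0 : X + Y ≠ 0 := by
    intro h0
    rw [h0, abs_zero] at h1
    have : (0 : ℤ) < (u : ℤ) ^ n := by positivity
    omega
  have hpa : |X ^ m| = (a : ℤ) ^ m := by rw [abs_pow, ha]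
  have hpb : |Y ^ m| = (b : ℤ) ^ m := by rw [abs_pow, hb]
  have hupow : ((u ^ (m - 1) : ℕ) : ℤ) ^ n = |X + Y| ^ (m - 1) := by
    rw [h1]
    push_cast
    rw [← pow_mul, ← pow_mul, mul_comm]
  have h4' : (Q : ℤ) ∣ (v : ℤ) - ((u ^ (m - 1) : ℕ) : ℤ) := by
    push_cast
    exact h4
  have hu' : 0 < u ^ (m - 1) := Nat.pow_pos hu
  rcases le_or_gt 0 (X * Y) with hs | hs
  · -- same signs
    have hXYpos : 0 < X * Y := lt_of_le_of_ne hs (mul_ne_zero hX hY).symm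
    have e1 : |X + Y| = |X| + |Y| := (abs_add_eq_add_abs_iff X Y).2 (by
      rcases pos_and_pos_or_neg_and_neg_of_mul_pos hXYpos with h5 | h5
      · exact Or.inl ⟨h5.1.le, h5.2.le⟩
      · exact Or.inr ⟨h5.1.le, h5.2.le⟩)
    have e2 : |X ^ m + Y ^ m| = |X ^ m| + |Y ^ m| := (abs_add_eq_add_abs_iff _ _).2 (by
      rcases pos_and_pos_or_neg_and_neg_of_mul_pos hXYpos with h5 | h5
      · exact Or.inl ⟨(pow_pos h5.1 m).le, (pow_pos h5.2 m).le⟩
      · exact Or.inr ⟨(hodd.pow_neg h5.1).le, (hodd.pow_neg h5.2).le⟩)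
    rw [e1, ha, hb] at h1 h2 hupow
    rw [e2, hpa, hpb] at h2
    have hmin : min |X + Y| |X| = |X| := by
      rw [e1]
      exact min_eq_right (by linarith)
    rw [hmin, ha, hb]
    rw [ha] at hXa
    rw [hb] at hYa
    have h6 := caseA (a := a) (b := b) (A := u ^ (m - 1)) (B := v) (Q := Q) (m := m) (n := n)
      (by exact_mod_cast hXa) (by exact_mod_cast hYa) hv (by omega)
      (by exact_mod_cast hupow) (by exact_mod_cast h2) h4'
    exact_mod_cast h6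
  · -- opposite signs
    have e3 : |X + Y| + |Y| = |X| := by
      rcases mul_neg_iff.1 hs with ⟨h5, h6⟩ | ⟨h5, h6⟩
      · rw [abs_of_pos h5, abs_of_neg h6] at hle ⊢
        rw [abs_of_nonneg (by linarith)]
        ring
      · rw [abs_of_neg h5, abs_of_pos h6] at hle ⊢
        rw [abs_of_nonpos (by linarith)]
        ring
    obtain ⟨s, hs'⟩ : ∃ s : ℕ, |X + Y| = s := ⟨(X + Y).natAbs, by simp⟩
    have hs0 : 0 < s := by
      have := abs_pos.2 hS0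
      rw [hs'] at this
      exact_mod_cast this
    rw [hs', hb, ha] at e3
    have e4 : b + s = a := by omega
    have e5 : |X ^ m + Y ^ m| + |Y ^ m| = |X ^ m| := by
      have h7 : |Y ^ m| ≤ |X ^ m| := by
        rw [abs_pow, abs_pow]
        exact pow_le_pow_left₀ (abs_nonneg _) hle m
      rcases mul_neg_iff.1 hs with ⟨h5, h6⟩ | ⟨h5, h6⟩
      · rw [abs_of_pos (pow_pos h5 m), abs_of_neg (hodd.pow_neg h6)] at h7 ⊢
        rw [abs_of_nonneg (by linarith)]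
        ring
      · rw [abs_of_neg (hodd.pow_neg h5), abs_of_pos (pow_pos h6 m)] at h7 ⊢
        rw [abs_of_nonpos (by linarith)]
        ring
    rw [hpa, hpb, ← h2, hs', ← e4] at e5
    rw [hs'] at hupow
    have hmin : min |X + Y| |X| = |X + Y| := min_eq_left (by rw [hs', ha]; omega)
    rw [hmin, hs', ha, hb]
    rw [hb] at hYa
    have h6 := caseB (b := b) (s := s) (A := u ^ (m - 1)) (B := v) (Q := Q) (m := m) (n := n)
      (by exact_mod_cast hYa) hs0 hu' (by omega) (by exact_mod_cast hupow)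
      (by exact_mod_cast e5) h4'
    have e6 : 2 * b + s = a + b := by omega
    rw [e6] at h6
    exact_mod_cast h6

theorem main {m n : ℕ} (hm : 3 ≤ m) (hodd : Odd m) (hn : n ≠ 0) {X Y z : ℤ} (hX : X ≠ 0)
    (hY : Y ≠ 0) (hXY : IsCoprime X Y) (hz : IsCoprime (m : ℤ) (X + Y))
    (h : X ^ m + Y ^ m = z ^ n) {Q : ℕ}
    (hQ : (Q : ℤ) * (X + Y) ∣ (X + Y) ^ m - X ^ m - Y ^ m) (hQn : Nat.Coprime Q.totient n) :
    ((Q : ℤ) + 1) ^ n ≤ (|X| + |Y|) ^ (m - 1) ∧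
      ((n : ℤ) * min |X + Y| (max |X| |Y|) * Q) ^ n ≤
        ((m : ℤ) * min |X| |Y|) ^ n * (|X| + |Y|) ^ (m - 1) := by
  rcases Nat.eq_zero_or_pos Q with hQ0 | hQ0
  · subst hQ0
    have hX1 : 1 ≤ |X| := Int.one_le_abs hX
    have hY1 : 1 ≤ |Y| := Int.one_le_abs hY
    constructor
    · rw [Nat.cast_zero, zero_add, one_pow]
      exact one_le_pow₀ (by linarith)
    · rw [Nat.cast_zero, mul_zero, zero_pow hn]
      positivity
  · rcases le_total |Y| |X| with hle | hle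
    · rw [max_eq_left hle, min_eq_right hle]
      exact main_le hm hodd hn hX hY hXY hz h hle hQ0.ne' hQ hQn
    · rw [max_eq_right hle, min_eq_left hle, add_comm |X| |Y|, add_comm X Y]
      refine main_le hm hodd hn hY hX hXY.symm (by rw [add_comm]; exact hz)
        (by rw [add_comm]; exact h) hle hQ0.ne' ?_ hQn
      have e : (Y + X) ^ m - Y ^ m - X ^ m = (X + Y) ^ m - X ^ m - Y ^ m := by
        rw [add_comm Y X]
        ring
      rw [e, add_comm Y X]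
      exact hQ

theorem pow_sub_lt {A B : ℤ} {n : ℕ} (hn : 2 ≤ n) (hB : 1 ≤ B) (hBA : B < A) :
    A - B < A ^ n - B ^ n := by
  obtain ⟨k, rfl⟩ : ∃ k, n = k + 1 := ⟨n - 1, by omega⟩
  have h1 : B ^ k < A ^ k := pow_lt_pow_left₀ hBA (by linarith) (by omega)
  have h2 : 1 ≤ B ^ k := one_le_pow₀ hB
  rw [pow_succ, pow_succ]
  nlinarith [mul_nonneg (sub_nonneg.2 hBA.le) (sub_nonneg.2 (h2.trans h1.le)),
    mul_pos (show (0 : ℤ) < B by linarith) (sub_pos.2 h1)]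

/-- Cauchy's number `((X + Y) ^ m - X ^ m - Y ^ m) / (X + Y)` -/
theorem cor0 {m n : ℕ} (hm : 3 ≤ m) (hodd : Odd m) (hn : 2 ≤ n) {X Y z : ℤ}
    (hXY : IsCoprime X Y) (hz : IsCoprime (m : ℤ) (X + Y)) (h : X ^ m + Y ^ m = z ^ n) {W : ℤ}
    (hW : W * (X + Y) = (X + Y) ^ m - X ^ m - Y ^ m) : ¬ Nat.Coprime W.natAbs.totient n := by
  intro hc
  have hn0 : n ≠ 0 := by omega
  obtain ⟨u, v, hu, hv, h1, h2, h3⟩ := arith hm hodd hn0 hXY hz h
  have hW0 : W.natAbs ≠ 0 := by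
    intro h0
    rw [h0, Nat.totient_zero, Nat.coprime_zero_left] at hc
    omega
  have hS0 : X + Y ≠ 0 := by
    intro h0
    rw [h0, abs_zero] at h1
    have : (0 : ℤ) < (u : ℤ) ^ n := by positivity
    omega
  have h4 : (W.natAbs : ℤ) ∣ (v : ℤ) - (u : ℤ) ^ (m - 1) := by
    refine h3 _ hW0 ?_ hc
    rw [← hW]
    exact mul_dvd_mul_right (Int.natAbs_dvd.2 dvd_rfl) _
  have heven : Even (m - 1) := by
    obtain ⟨k, hk⟩ := hodd
    exact ⟨k, by omega⟩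
  set A : ℤ := (u : ℤ) ^ (m - 1) with hA
  have hA1 : 1 ≤ A := one_le_pow₀ (by exact_mod_cast hu)
  have hv1 : (1 : ℤ) ≤ v := by exact_mod_cast hv
  have hSpow : (X + Y) ^ (m - 1) = A ^ n := by
    rw [← heven.pow_abs, h1, hA, ← pow_mul, ← pow_mul, mul_comm]
  have hWA : W = A ^ n - (v : ℤ) ^ n := by
    apply mul_right_cancel₀ hS0
    rw [hW, sub_mul, mul_comm ((v : ℤ) ^ n), h2, ← hSpow, pow_sub_one_mul (by omega)]
    ring
  have h5 : |W| ∣ (v : ℤ) - A := by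
    rwa [← Int.natCast_natAbs]
  have hvA : (v : ℤ) ≠ A := by
    intro h0
    rw [h0, sub_self] at hWA
    rw [hWA] at hW0
    exact hW0 rfl
  rcases lt_or_gt_of_ne hvA with h6 | h6
  · have h7 := pow_sub_lt hn hv1 h6
    rw [← hWA] at h7
    rw [abs_of_pos (by linarith), ← neg_sub, dvd_neg] at h5
    have h8 := Int.le_of_dvd (by linarith) h5
    linarith
  · have h7 := pow_sub_lt hn hA1 h6
    have h8 : |W| = (v : ℤ) ^ n - A ^ n := by
      rw [hWA, abs_of_neg (by linarith)]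
      ring
    rw [h8] at h5
    have h9 := Int.le_of_dvd (by linarith) h5
    linarith

/-- the divisors of `X Y` are allowed -/
theorem dvd_of_dvd {m : ℕ} (hm : m ≠ 0) (hodd : Odd m) {X Y : ℤ} (hXY : IsCoprime X Y) {Q : ℕ}
    (hQ : (Q : ℤ) ∣ X * Y) : (Q : ℤ) * (X + Y) ∣ (X + Y) ^ m - X ^ m - Y ^ m :=
  (mul_dvd_mul_right hQ _).trans (cauchy_dvd hm hodd hXY)

/-- no solution with `φ (|X Y|)` prime to `n ≥ m` -/
theorem cor1 {m n : ℕ} (hm : 3 ≤ m) (hodd : Odd m) (hmn : m ≤ n) {X Y z : ℤ} (hX : X ≠ 0)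
    (hY : Y ≠ 0) (hXY : IsCoprime X Y) (hz : IsCoprime (m : ℤ) (X + Y))
    (h : X ^ m + Y ^ m = z ^ n) : ¬ Nat.Coprime (X * Y).natAbs.totient n := by
  intro hc
  have h1 := (main (Q := (X * Y).natAbs) hm hodd (by omega) hX hY hXY hz h
    (dvd_of_dvd (by omega) hodd hXY (Int.natAbs_dvd.2 dvd_rfl)) hc).1
  have hX1 : 1 ≤ |X| := Int.one_le_abs hX
  have hY1 : 1 ≤ |Y| := Int.one_le_abs hY
  have h2 : ((X * Y).natAbs : ℤ) = |X| * |Y| := by rw [Int.natCast_natAbs, abs_mul]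
  rw [h2] at h1
  have h3 : |X| + |Y| ≤ |X| * |Y| + 1 := by nlinarith
  have h4 : (|X| + |Y|) ^ (m - 1) < (|X| + |Y|) ^ n :=
    pow_lt_pow_right₀ (by linarith) (by omega)
  have h5 : (|X| + |Y|) ^ n ≤ (|X| * |Y| + 1) ^ n := pow_le_pow_left₀ (by linarith) h3 n
  linarith

/-- no positive solution with `φ (X Y)` prime to `n ≥ (m + 3) / 2` -/
theorem cor3 {m n : ℕ} (hm : 3 ≤ m) (hodd : Odd m) (hmn : m + 3 ≤ 2 * n) {X Y z : ℤ} (hX : 0 < X)
    (hY : 0 < Y) (hXY : IsCoprime X Y) (hz : IsCoprime (m : ℤ) (X + Y))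
    (h : X ^ m + Y ^ m = z ^ n) : ¬ Nat.Coprime (X * Y).natAbs.totient n := by
  intro hc
  have hn0 : n ≠ 0 := by omega
  have h1 := (main (Q := (X * Y).natAbs) hm hodd hn0 hX.ne' hY.ne' hXY hz h
    (dvd_of_dvd (by omega) hodd hXY (Int.natAbs_dvd.2 dvd_rfl)) hc).2
  obtain ⟨u, v, hu, hv, h2, -, -⟩ := arith hm hodd hn0 hXY hz h
  rw [abs_of_pos (add_pos hX hY)] at h1 h2
  rw [Int.natCast_natAbs, abs_of_pos (mul_pos hX hY), abs_of_pos hX, abs_of_pos hY,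
    ← max_mul_min X Y] at h1
  set M : ℤ := max X Y with hM
  set N : ℤ := min X Y with hN
  have hXM : X ≤ M := le_max_left _ _
  have hYM : Y ≤ M := le_max_right _ _
  have hM0 : 0 < M := by linarith
  have hNpos : 0 < N := lt_min hX hY
  have hMS : M ≤ X + Y := max_le (by linarith) (by linarith)
  rw [min_eq_right hMS] at h1
  set S : ℤ := X + Y with hSdef
  have hS2 : 2 ≤ S := by omega
  have hu2 : (2 : ℤ) ≤ u := by
    by_contra hcon
    have h5 : u = 1 := by omega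
    rw [h5] at h2
    simp at h2
    omega
  have hS : (2 : ℤ) ^ n ≤ S := by
    rw [h2]
    exact pow_le_pow_left₀ (by norm_num) hu2 n
  have hn1 : (1 : ℤ) ≤ n := by exact_mod_cast Nat.pos_of_ne_zero hn0
  -- cancel `N`
  have h3 : N ^ n * ((n : ℤ) * M ^ 2) ^ n ≤ N ^ n * ((m : ℤ) ^ n * S ^ (m - 1)) := by
    have e1 : ((n : ℤ) * M * (M * N)) ^ n = N ^ n * ((n : ℤ) * M ^ 2) ^ n := by
      rw [← mul_pow]
      ring
    have e2 : ((m : ℤ) * N) ^ n * S ^ (m - 1) = N ^ n * ((m : ℤ) ^ n * S ^ (m - 1)) := by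
      rw [mul_pow]
      ring
    rwa [e1, e2] at h1
  have h4 := le_of_mul_le_mul_left h3 (pow_pos hNpos n)
  have h5 : S ^ 2 ≤ 4 * M ^ 2 := by nlinarith
  have h6 : ((n : ℤ) * S ^ 2) ^ n ≤ (4 * (m : ℤ)) ^ n * S ^ (m - 1) := by
    calc ((n : ℤ) * S ^ 2) ^ n ≤ ((n : ℤ) * (4 * M ^ 2)) ^ n := by
          refine pow_le_pow_left₀ (by positivity) ?_ n
          exact mul_le_mul_of_nonneg_left h5 (by linarith)
      _ = 4 ^ n * ((n : ℤ) * M ^ 2) ^ n := by rw [← mul_pow]; ring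
      _ ≤ 4 ^ n * ((m : ℤ) ^ n * S ^ (m - 1)) := mul_le_mul_of_nonneg_left h4 (by positivity)
      _ = (4 * (m : ℤ)) ^ n * S ^ (m - 1) := by rw [mul_pow]; ring
  have h7 : S ^ (m - 1) * (16 * (n : ℤ)) ^ n ≤ ((n : ℤ) * S ^ 2) ^ n := by
    have h8 : (16 : ℤ) ^ n ≤ S ^ 4 := by
      calc (16 : ℤ) ^ n = (2 ^ n) ^ 4 := by rw [← pow_mul, mul_comm, pow_mul]; norm_num
        _ ≤ S ^ 4 := pow_le_pow_left₀ (by positivity) hS 4
    have h9 : S ^ (m - 1) * S ^ 4 ≤ S ^ (2 * n) := by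
      rw [← pow_add]
      exact pow_le_pow_right₀ (by linarith) (by omega)
    calc S ^ (m - 1) * (16 * (n : ℤ)) ^ n = (n : ℤ) ^ n * (S ^ (m - 1) * 16 ^ n) := by
          rw [mul_pow]; ring
      _ ≤ (n : ℤ) ^ n * (S ^ (m - 1) * S ^ 4) := by
          refine mul_le_mul_of_nonneg_left ?_ (by positivity)
          exact mul_le_mul_of_nonneg_left h8 (by positivity)
      _ ≤ (n : ℤ) ^ n * S ^ (2 * n) := mul_le_mul_of_nonneg_left h9 (by positivity)
      _ = ((n : ℤ) * S ^ 2) ^ n := by rw [mul_pow, ← pow_mul]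
  have h8 : S ^ (m - 1) * (16 * (n : ℤ)) ^ n ≤ S ^ (m - 1) * (4 * (m : ℤ)) ^ n := by
    rw [mul_comm _ ((4 * (m : ℤ)) ^ n)]
    exact h7.trans h6
  have h9 := le_of_mul_le_mul_left h8 (by positivity)
  have h10 : 4 * (m : ℤ) < 16 * (n : ℤ) := by
    have : 4 * m < 16 * n := by omega
    exact_mod_cast this
  have h11 := pow_lt_pow_left₀ h10 (by positivity) hn0
  linarith

/-- no positive solution with `φ (X)` prime to `n ≥ m` -/
theorem cor2 {m n : ℕ} (hm : 3 ≤ m) (hodd : Odd m) (hmn : m ≤ n) {X Y z : ℤ} (hX : 0 < X)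
    (hY : 0 < Y) (hXY : IsCoprime X Y) (hz : IsCoprime (m : ℤ) (X + Y))
    (h : X ^ m + Y ^ m = z ^ n) : ¬ Nat.Coprime X.natAbs.totient n := by
  intro hc
  have hn0 : n ≠ 0 := by omega
  have h1 := (main (Q := X.natAbs) hm hodd hn0 hX.ne' hY.ne' hXY hz h
    (dvd_of_dvd (by omega) hodd hXY ((Int.natAbs_dvd.2 dvd_rfl).mul_right _)) hc).2
  obtain ⟨u, v, hu, hv, h2, -, -⟩ := arith hm hodd hn0 hXY hz h
  rw [abs_of_pos (add_pos hX hY)] at h1 h2
  rw [Int.natCast_natAbs, abs_of_pos hX, abs_of_pos hY] at h1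
  set M : ℤ := max X Y with hM
  have hXM : X ≤ M := le_max_left _ _
  have hYM : Y ≤ M := le_max_right _ _
  have hMS : M ≤ X + Y := max_le (by linarith) (by linarith)
  rw [min_eq_right hMS] at h1
  have hu2 : (2 : ℤ) ≤ u := by
    by_contra hcon
    have h5 : u = 1 := by omega
    rw [h5] at h2
    simp at h2
    omega
  have hS : (2 : ℤ) ^ n ≤ X + Y := by
    rw [h2]
    exact pow_le_pow_left₀ (by norm_num) hu2 n
  have hne : X ≠ Y := by
    rintro rfl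
    have h3 : IsUnit X := hXY.isUnit_of_dvd' dvd_rfl dvd_rfl
    have h4 : X = 1 := by
      rcases Int.isUnit_iff.1 h3 with h5 | h5
      · exact h5
      · omega
    rw [h4] at hS
    have h6 : (2 : ℤ) ^ 3 ≤ 2 ^ n := pow_le_pow_right₀ (by norm_num) (by omega)
    linarith
  have hMS2 : X + Y + 1 ≤ 2 * M := by
    rcases lt_or_gt_of_ne hne with h3 | h3 <;> omega
  -- cancel
  have hmin : min X Y ≤ X := min_le_left _ _
  have hminpos : 0 < min X Y := lt_min hX hY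
  have h7 : ((m : ℤ) * min X Y) ^ n ≤ ((n : ℤ) * X) ^ n := by
    refine pow_le_pow_left₀ (by positivity) ?_ n
    exact mul_le_mul (by exact_mod_cast hmn) hmin hminpos.le (by positivity)
  have h8 : ((n : ℤ) * M * X) ^ n ≤ ((n : ℤ) * X) ^ n * (X + Y) ^ (m - 1) :=
    h1.trans (mul_le_mul_of_nonneg_right h7 (by positivity))
  have h9 : ((n : ℤ) * X) ^ n * M ^ n ≤ ((n : ℤ) * X) ^ n * (X + Y) ^ (m - 1) := by
    have e : ((n : ℤ) * M * X) ^ n = ((n : ℤ) * X) ^ n * M ^ n := by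
      rw [← mul_pow]
      ring
    rwa [e] at h8
  have hnX : 0 < ((n : ℤ) * X) ^ n := pow_pos (mul_pos (by exact_mod_cast Nat.pos_of_ne_zero hn0) hX) n
  have h10 : M ^ n ≤ (X + Y) ^ (m - 1) := le_of_mul_le_mul_left h9 hnX
  have h11 : (X + Y) ^ (m - 1) ≤ (X + Y) ^ (n - 1) := pow_le_pow_right₀ (by linarith) (by omega)
  have h12 : (X + Y) ^ n < (2 * M) ^ n := pow_lt_pow_left₀ (by linarith) (by linarith) hn0
  have h13 : (2 * M) ^ n ≤ (X + Y) ^ n := by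
    calc (2 * M) ^ n = 2 ^ n * M ^ n := mul_pow _ _ _
      _ ≤ (X + Y) * (X + Y) ^ (n - 1) :=
          mul_le_mul hS (h10.trans h11) (by positivity) (by linarith)
      _ = (X + Y) ^ n := mul_pow_sub_one hn0 _
  linarith

end Pool.Agent.U792.EP
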